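import Pool.Agent.H99.FI.Loc.Local

/-!
# Job L (MP_bdd10f_pr): locality of the repair kernel (helper27)
-/

set_option autoImplicit false

namespace FI

open Finset Function
open scoped Classical

variable {V : Type*} {G : SimpleGraph V} {d : ℕ}

/-- `X` covers the region of the repair at the edge `e` in the volume `B`: it contains the ball of
radius `2M+J+2` around `e.1` and the (closure of the) Kempe chain on the side of `N0 e`. -/
def PT.Cov (T : PT G d) (P : Par) (B : Finset V) (e : Dart V d) (X : Finset V) (ω : Cfg V d) :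
    Prop :=
  (∀ v ∈ B, G.dist e.1 v ≤ 2 * P.M + P.J + 2 → v ∈ X) ∧
  (∀ n f, pos (T.nof B ω.2) ω.1 (Equiv.swap (col ω.1 e) (col ω.1 (T.N0 e))) (T.N0 e) n = some f →
    f.1 ∈ X ∧
    ((T.N0 (dt ω.1 f.1 (Equiv.swap (col ω.1 e) (col ω.1 (T.N0 e)) (col ω.1 f)))).1 ∈ B →
      (T.N0 (dt ω.1 f.1 (Equiv.swap (col ω.1 e) (col ω.1 (T.N0 e)) (col ω.1 f)))).1 ∈ X))

namespace Loc

theorem nof_eq (T : PT G d) {B B' X : Finset V} (hB' : B' ⊆ B) (hX : X ⊆ B')
    {ω ω' : Cfg V d} (h2 : ∀ c ∈ T.EB X, ω.2 c = ω'.2 c) {c : Dart V d} (hc : c.1 ∈ X)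
    (hu : (T.N0 c).1 ∈ B → (T.N0 c).1 ∈ X) : T.nof B ω.2 c = T.nof B' ω'.2 c := by
  unfold PT.nof
  by_cases h : (T.N0 c).1 ∈ B
  · have hX' := hu h
    have h3 := h2 _ (T.cd_mem_EB hc hX')
    rw [h3]
    refine if_congr ?_ rfl rfl
    constructor
    · rintro ⟨_, _, h⟩
      exact ⟨hX hc, hX hX', h⟩
    · rintro ⟨_, _, h⟩
      exact ⟨hB' (hX hc), hB' (hX hX'), h⟩
  · rw [if_neg (fun h' => h h'.2.1), if_neg (fun h' => h (hB' h'.2.1))]

theorem agr (hG : G.IsTree) (T : PT G d) {P : Par} {B B' X : Finset V} (hB' : B' ⊆ B)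
    (hX : X ⊆ B') {e : Dart V d} {ω ω' : Cfg V d} (hcov : T.Cov P B e X ω)
    (h1 : ∀ v ∈ X, ω.1 v = ω'.1 v) (h2 : ∀ c ∈ T.EB X, ω.2 c = ω'.2 c) :
    Agr G B e.1 (2 * P.M + P.J + 2) (T.nof B ω.2) (T.nof B' ω'.2) ω.1 ω'.1 := by
  refine ⟨fun v hv hd => h1 v (hcov.1 v hv hd), fun v hv hd i => ?_⟩
  refine nof_eq T hB' hX h2 (hcov.1 v hv (by omega)) (fun hu => hcov.1 _ hu ?_)
  have := dist_adj_le hG e.1 (T.adj (v, i))
  change G.dist e.1 (T.N0 (v, i)).1 ≤ G.dist e.1 v + 1 at this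
  omega

theorem moved {x : St V d} {a b : Dart V d} (h : col x a ≠ col x b) :
    Equiv.swap (col x a) (col x b) (col x a) ≠ col x a := by
  rw [Equiv.swap_apply_left]
  exact h.symm

theorem moved' {x : St V d} {a b : Dart V d} (h : col x a ≠ col x b) :
    Equiv.swap (col x a) (col x b) (col x b) ≠ col x b := by
  rw [Equiv.swap_apply_right]
  exact h

theorem avail_mem {P : Par} {N : Adj V d} {x : St V d} {τ : Equiv.Perm (Fin d)} {b : Fin d}
    {a : Dart V d} {ξ j : ℕ} (h : (avail P N x τ b a)[ξ]? = some j) :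
    j < P.M ∧ own P.J N x τ b a (2 * j) := by
  have h1 : j ∈ avail P N x τ b a := List.mem_of_getElem? h
  unfold avail at h1
  rw [List.mem_filter, List.mem_range] at h1
  refine ⟨h1.1, ?_⟩
  have h2 := h1.2
  rw [decide_eq_true_eq] at h2
  exact h2.1

end Loc

open Loc

/-- L1: two configurations (in nested volumes) which agree on `X` have the same repair on `X`. -/
theorem kern_local [NeZero d] (_hd : 3 ≤ d) (hG : G.IsTree) (T : PT G d) (P : Par)
    (B B' X : Finset V) (hB' : B' ⊆ B) (hX : X ⊆ B') (e : Dart V d) (he : e ∈ T.EB B')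
    (ω ω' : Cfg V d) (_hcut : ω.2 e = false) (_hcut' : ω'.2 e = false)
    (hc : Cons (T.nof B ω.2) ω.1) (hc' : Cons (T.nof B' ω'.2) ω'.1)
    (hcov : T.Cov P B e X ω)
    (h1 : ∀ v ∈ X, ω.1 v = ω'.1 v) (h2 : ∀ c ∈ T.EB X, ω.2 c = ω'.2 c) (ξ : ℕ) :
    T.Cov P B' e X ω' ∧
    ∀ v ∈ X, kern P (T.nof B ω.2) ω.1 ξ e (T.N0 e) v =
      kern P (T.nof B' ω'.2) ω'.1 ξ e (T.N0 e) v := by
  have heB : e ∈ T.EB B := T.EB_mono hB' he
  rw [T.mem_EB] at he heB
  have hA := agr hG T hB' hX hcov h1 h2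
  have hS := stp_nof T B ω.2
  have hN : ∀ a b, T.nof B ω.2 a = some b → T.N0 a = b := fun a b h => (T.nof_some.mp h).2.2.2
  have hN' : ∀ a b, T.nof B' ω'.2 a = some b → T.N0 a = b := fun a b h => (T.nof_some.mp h).2.2.2
  have heX : e.1 ∈ X := hcov.1 _ heB.1 (by simp)
  have hneX : (T.N0 e).1 ∈ X := hcov.1 _ heB.2.2 (by
    have := dist_adj_le hG e.1 (T.adj e)
    rw [SimpleGraph.dist_self] at this
    omega)
  have hc1 : col ω'.1 e = col ω.1 e := by unfold col; rw [h1 _ heX]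
  have hc2 : col ω'.1 (T.N0 e) = col ω.1 (T.N0 e) := by unfold col; rw [h1 _ hneX]
  -- the chain on the side of `N0 e`
  have hpos : ∀ n, pos (T.nof B ω.2) ω.1 (Equiv.swap (col ω.1 e) (col ω.1 (T.N0 e))) (T.N0 e) n =
      pos (T.nof B' ω'.2) ω'.1 (Equiv.swap (col ω.1 e) (col ω.1 (T.N0 e))) (T.N0 e) n := by
    intro n
    apply pos_congr
    intro i f _ hf
    obtain ⟨h3, h4⟩ := hcov.2 i f hf
    exact ⟨h1 _ h3, nof_eq T hB' hX h2 (c := dt ω.1 f.1 _) h3 h4⟩
  constructor
  · refine ⟨fun v hv hd => hcov.1 v (hB' hv) hd, ?_⟩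
    intro n f hf
    rw [hc1, hc2] at hf ⊢
    rw [← hpos] at hf
    obtain ⟨h3, h4⟩ := hcov.2 n f hf
    have h5 : ω'.1 f.1 = ω.1 f.1 := (h1 _ h3).symm
    have h6 : col ω'.1 f = col ω.1 f := by unfold col; rw [h5]
    have h7 : ∀ k, dt ω'.1 f.1 k = dt ω.1 f.1 k := by intro k; unfold dt; rw [h5]
    rw [h6, h7]
    exact ⟨h3, fun h => h4 (hB' h)⟩
  · intro v hv
    unfold kern
    rw [hc1, hc2]
    by_cases hk : col ω.1 e = col ω.1 (T.N0 e)
    · rw [if_pos hk, if_pos hk, h1 v hv]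
    rw [if_neg hk, if_neg hk]
    have hav := hA.avail hG T hS hN hN' hc hc' (moved hk) heB.1
      (third (col ω.1 e) (col ω.1 (T.N0 e))) P (by omega)
    rw [← hav]
    cases hξ : (avail P (T.nof B ω.2) ω.1 (Equiv.swap (col ω.1 e) (col ω.1 (T.N0 e)))
      (third (col ω.1 e) (col ω.1 (T.N0 e))) e)[ξ]? with
    | some j =>
      obtain ⟨hj, ho⟩ := avail_mem hξ
      exact hA.phi hG hS heB.1 (by rw [SimpleGraph.dist_self]; omega) ho (h1 v hv)
    | none =>
      change flip _ _ _ _ v = flip _ _ _ _ v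
      unfold flip onCh
      simp only [hpos, h1 v hv]

/-- L2: nothing changes outside of `X`, and the colours of the darts leaving `X` do not change. -/
theorem kern_off [NeZero d] (_hd : 3 ≤ d) (hG : G.IsTree) (T : PT G d) (P : Par)
    (B X : Finset V) (_hX : X ⊆ B) (e : Dart V d) (he : e ∈ T.EB B)
    (ω : Cfg V d) (_hcut : ω.2 e = false) (hc : Cons (T.nof B ω.2) ω.1)
    (hcov : T.Cov P B e X ω) (ξ : ℕ) :
    (∀ v, v ∉ X → kern P (T.nof B ω.2) ω.1 ξ e (T.N0 e) v = ω.1 v) ∧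
    (∀ c : Dart V d, c.1 ∈ X → (T.N0 c).1 ∈ B → (T.N0 c).1 ∉ X →
      col (kern P (T.nof B ω.2) ω.1 ξ e (T.N0 e)) c = col ω.1 c) := by
  rw [T.mem_EB] at he
  have hS := stp_nof T B ω.2
  unfold kern
  by_cases hk : col ω.1 e = col ω.1 (T.N0 e)
  · rw [if_pos hk]
    exact ⟨fun _ _ => rfl, fun _ _ _ _ => rfl⟩
  rw [if_neg hk]
  cases hξ : (avail P (T.nof B ω.2) ω.1 (Equiv.swap (col ω.1 e) (col ω.1 (T.N0 e)))
    (third (col ω.1 e) (col ω.1 (T.N0 e))) e)[ξ]? with
  | some j =>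
    obtain ⟨hj, ho⟩ := avail_mem hξ
    have key : ∀ v, ¬ (v ∈ B ∧ G.dist e.1 v + 1 ≤ 2 * P.M + P.J + 2) →
        phi (T.nof B ω.2) ω.1 (Equiv.swap (col ω.1 e) (col ω.1 (T.N0 e)))
          (third (col ω.1 e) (col ω.1 (T.N0 e))) e (2 * j) v = ω.1 v := fun v hv =>
      phi_off hG (r := e.1) (R := 2 * P.M + P.J + 2) hS he.1
        (by rw [SimpleGraph.dist_self]; omega) ho hv
    constructor
    · intro v hv
      refine key v fun h => hv (hcov.1 v h.1 (by omega))
    · intro c hcX hcB hcX'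
      have h3 : ¬ (c.1 ∈ B ∧ G.dist e.1 c.1 + 1 ≤ 2 * P.M + P.J + 2) := by
        rintro ⟨_, h4⟩
        have h5 := dist_adj_le hG e.1 (T.adj c)
        exact hcX' (hcov.1 _ hcB (by omega))
      have := key c.1 h3
      unfold col at this ⊢
      exact congrArg (fun σ : Equiv.Perm (Fin d) => σ c.2) this
  | none =>
    constructor
    · intro v hv
      change flip _ _ _ _ v = _
      unfold flip
      rw [if_neg]
      rintro ⟨n, f, hf, rfl⟩
      exact hv (hcov.2 n f hf).1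
    · intro c hcX hcB hcX'
      change col (flip _ _ _ _) c = _
      unfold col flip
      split_ifs with hon
      · obtain ⟨n, f, hf, hfc⟩ := hon
        change Equiv.swap (col ω.1 e) (col ω.1 (T.N0 e)) (col ω.1 c) = col ω.1 c
        set τ := Equiv.swap (col ω.1 e) (col ω.1 (T.N0 e)) with hτ
        have hcov2 := hcov.2 n f hf
        rw [← hτ] at hcov2
        -- `c` is neither the leaving nor the arrival dart
        have hne1 : col ω.1 c ≠ τ (col ω.1 f) := by
          intro h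
          have h5 : dt ω.1 f.1 (τ (col ω.1 f)) = c := by
            rw [← h, hfc, dt_col]
          rw [h5] at hcov2
          exact hcX' (hcov2.2 hcB)
        have hne2 : col ω.1 c ≠ col ω.1 f := by
          intro h
          have h5 : c = f := by
            rw [← dt_col ω.1 c, ← dt_col ω.1 f, h, hfc]
          subst h5
          cases n with
          | zero =>
            rw [pos_zero, Option.some.injEq] at hf
            rw [← hf, T.inv] at hcX'
            exact hcX' (hcov.1 _ he.1 (by simp))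
          | succ n =>
            rw [pos_succ_some] at hf
            obtain ⟨g, hg, hf⟩ := hf
            rw [T.nof_some] at hf
            have h6 : T.N0 c = dt ω.1 g.1 (τ (col ω.1 g)) := by
              rw [← hf.2.2.2, T.inv]
              rfl
            rw [h6] at hcX'
            exact hcX' (hcov.2 n g hg).1
        have hmv : τ (col ω.1 f) ≠ col ω.1 f := pos_moved hc (moved' hk) hf
        -- so the colour of `c` is not moved by the transposition
        have hmem : ∀ k, τ k ≠ k → k = col ω.1 e ∨ k = col ω.1 (T.N0 e) := by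
          intro k hk'
          by_contra hcon
          push Not at hcon
          exact hk' (Equiv.swap_apply_of_ne_of_ne hcon.1 hcon.2)
        by_contra hmc
        rcases hmem _ hmc with h7 | h7 <;> rcases hmem _ hmv with h8 | h8
        · exact hne2 (h7.trans h8.symm)
        · apply hne1
          rw [h7, h8, hτ, Equiv.swap_apply_right]
        · apply hne1
          rw [h7, h8, hτ, Equiv.swap_apply_left]
        · exact hne2 (h7.trans h8.symm)
      · rfl

end FI
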