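import Pool.Agent.H99.FI.Windows

/-!
# Job L (MP_bdd10f_pr): locality of the repair kernel: basic lemmas (helper27)
-/

set_option autoImplicit false

namespace FI

open Finset Function
open scoped Classical

namespace Loc

section Gen

variable {V : Type*} {d : ℕ}

theorem pos_zero (N : Adj V d) (x : St V d) (τ : Equiv.Perm (Fin d)) (a : Dart V d) :
    pos N x τ a 0 = some a := rfl

theorem pos_succ (N : Adj V d) (x : St V d) (τ : Equiv.Perm (Fin d)) (a : Dart V d) (n : ℕ) :
    pos N x τ a (n + 1) = (pos N x τ a n).bind (nx N x τ) := rfl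

theorem pos_succ_some {N : Adj V d} {x : St V d} {τ : Equiv.Perm (Fin d)} {a : Dart V d} {n : ℕ}
    {f : Dart V d} : pos N x τ a (n + 1) = some f ↔
      ∃ g, pos N x τ a n = some g ∧ N (dt x g.1 (τ (col x g))) = some f := by
  rw [pos_succ, Option.bind_eq_some_iff]
  rfl

theorem pos_succ' (N : Adj V d) (x : St V d) (τ : Equiv.Perm (Fin d)) (a : Dart V d) (n : ℕ) :
    pos N x τ a (n + 1) = (nx N x τ a).bind (fun c => pos N x τ c n) := by
  induction n generalizing a with
  | zero =>
    rw [pos_succ, pos_zero]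
    cases h : nx N x τ a with
    | none => simp [h]
    | some c => simp [h, pos_zero]
  | succ n ih =>
    rw [pos_succ, ih]
    cases h : nx N x τ a with
    | none => simp
    | some c => simp [pos_succ]

theorem pos_none_of_le {N : Adj V d} {x : St V d} {τ : Equiv.Perm (Fin d)} {a : Dart V d} {n m : ℕ}
    (h : pos N x τ a n = none) (hnm : n ≤ m) : pos N x τ a m = none := by
  induction m, hnm using Nat.le_induction with
  | base => exact h
  | succ m _ ih => rw [pos_succ, ih]; rfl

theorem pos_some_of_le {N : Adj V d} {x : St V d} {τ : Equiv.Perm (Fin d)} {a : Dart V d} {n m : ℕ}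
    {f : Dart V d} (h : pos N x τ a m = some f) (hnm : n ≤ m) : ∃ g, pos N x τ a n = some g := by
  cases hn : pos N x τ a n with
  | none => rw [pos_none_of_le hn hnm] at h; cases h
  | some g => exact ⟨g, rfl⟩

/-- general congruence for chains -/
theorem pos_congr {N N' : Adj V d} {x x' : St V d} {τ : Equiv.Perm (Fin d)} {a : Dart V d} {n : ℕ}
    (h : ∀ i f, i < n → pos N x τ a i = some f →
      x f.1 = x' f.1 ∧ N (dt x f.1 (τ (col x f))) = N' (dt x f.1 (τ (col x f)))) :
    pos N x τ a n = pos N' x' τ a n := by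
  induction n with
  | zero => rfl
  | succ n ih =>
    have ih' := ih (fun i f hi hf => h i f (by omega) hf)
    rw [pos_succ, pos_succ, ← ih']
    cases hf : pos N x τ a n with
    | none => rfl
    | some f =>
      obtain ⟨h1, h2⟩ := h n f (by omega) hf
      change nx N x τ f = nx N' x' τ f
      unfold nx
      rw [h2]
      unfold dt col
      rw [h1]

theorem col_dt (x : St V d) (v : V) (k : Fin d) : col x (dt x v k) = k := by
  simp [col, dt]

theorem dt_col (x : St V d) (c : Dart V d) : dt x c.1 (col x c) = c := by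
  simp [col, dt]

theorem pos_col {N : Adj V d} {x : St V d} (hx : Cons N x) {τ : Equiv.Perm (Fin d)}
    {a : Dart V d} {n : ℕ} {f g : Dart V d} (hg : pos N x τ a n = some g)
    (hf : pos N x τ a (n + 1) = some f) : col x f = τ (col x g) := by
  rw [pos_succ, hg] at hf
  have := hx _ _ hf
  rw [col_dt] at this
  exact this.symm

/-- colours along the chain are moved by `τ` -/
theorem pos_moved {N : Adj V d} {x : St V d} (hx : Cons N x) {τ : Equiv.Perm (Fin d)}
    {a : Dart V d} (ha : τ (col x a) ≠ col x a) {n : ℕ} {f : Dart V d}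
    (hf : pos N x τ a n = some f) : τ (col x f) ≠ col x f := by
  induction n generalizing f with
  | zero =>
    rw [pos_zero, Option.some.injEq] at hf
    rwa [← hf]
  | succ n ih =>
    obtain ⟨g, hg⟩ := pos_some_of_le hf (Nat.le_succ n)
    rw [pos_col hx hg hf]
    intro h
    exact ih hg (τ.injective h)

theorem pos_wk {N : Adj V d} {x : St V d} (hx : Cons N x) {τ : Equiv.Perm (Fin d)}
    {a : Dart V d} (ha : τ (col x a) ≠ col x a) {n : ℕ} {f : Dart V d}
    (hf : pos N x τ a n = some f) : ∃ w : List (Fin d), w.length = n ∧ Wk N a w f := by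
  induction n generalizing a with
  | zero =>
    rw [pos_zero, Option.some.injEq] at hf
    subst hf
    exact ⟨[], rfl, Wk.nil a⟩
  | succ n ih =>
    rw [pos_succ', Option.bind_eq_some_iff] at hf
    obtain ⟨c, hc, hf⟩ := hf
    have hc' : N (dt x a.1 (τ (col x a))) = some c := hc
    have hcol : col x c = τ (col x a) := by
      have := hx _ _ hc'
      rw [col_dt] at this
      exact this.symm
    obtain ⟨w, hw, hwk⟩ := ih (by rw [hcol]; exact fun h => ha (τ.injective h)) hf
    refine ⟨(dt x a.1 (τ (col x a))).2 :: w, by simp [hw], ?_⟩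
    refine Wk.cons ?_ hc' hwk
    intro h
    apply ha
    have h2 : dt x a.1 (τ (col x a)) = a := Prod.ext rfl h
    have := col_dt x a.1 (τ (col x a))
    rw [h2] at this
    exact this.symm

end Gen

section Tree

variable {V : Type*} {G : SimpleGraph V} {d : ℕ}

/-- every step of `N` goes to a neighbour in `B` -/
def Stp (G : SimpleGraph V) (B : Finset V) (N : Adj V d) : Prop :=
  ∀ a b : Dart V d, N a = some b → b.1 ∈ B ∧ G.Adj a.1 b.1

theorem stp_nof (T : PT G d) (B : Finset V) (u : Dart V d → Bool) : Stp G B (T.nof B u) := by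
  intro a b h
  rw [T.nof_some] at h
  obtain ⟨_, h2, _, rfl⟩ := h
  exact ⟨h2, T.adj a⟩

theorem pos_mem {B : Finset V} {N : Adj V d} (hN : Stp G B N) {x : St V d}
    {τ : Equiv.Perm (Fin d)} {a : Dart V d} (ha : a.1 ∈ B) {n : ℕ} {f : Dart V d}
    (hf : pos N x τ a n = some f) : f.1 ∈ B := by
  cases n with
  | zero =>
    rw [pos_zero, Option.some.injEq] at hf
    rwa [← hf]
  | succ n =>
    rw [pos_succ_some] at hf
    obtain ⟨g, _, hg⟩ := hf
    exact (hN _ _ hg).1

theorem dist_adj_le (hG : G.IsTree) (r : V) {v w : V} (h : G.Adj v w) :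
    G.dist r w ≤ G.dist r v + 1 := by
  rcases dist_adj hG r h with h' | h' <;> omega

theorem pos_dist_le (hG : G.IsTree) {B : Finset V} {N : Adj V d} (hN : Stp G B N) (r : V)
    {x : St V d} {τ : Equiv.Perm (Fin d)} {a : Dart V d} {n : ℕ} {f : Dart V d}
    (hf : pos N x τ a n = some f) : G.dist r f.1 ≤ G.dist r a.1 + n := by
  induction n generalizing f with
  | zero =>
    rw [pos_zero, Option.some.injEq] at hf
    rw [← hf]; simp
  | succ n ih =>
    rw [pos_succ_some] at hf
    obtain ⟨g, hg, hf⟩ := hf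
    have h1 := ih hg
    have h2 := dist_adj_le hG r (hN _ _ hf).2
    have h3 : (dt x g.1 (τ (col x g))).1 = g.1 := rfl
    rw [h3] at h2
    omega

/-- local agreement of states and adjacencies in the ball of radius `R` -/
structure Agr (G : SimpleGraph V) (B : Finset V) (r : V) (R : ℕ) (N N' : Adj V d)
    (x x' : St V d) : Prop where
  st : ∀ v ∈ B, G.dist r v ≤ R → x v = x' v
  ad : ∀ v ∈ B, G.dist r v + 1 ≤ R → ∀ i, N (v, i) = N' (v, i)

theorem Agr.pos (hG : G.IsTree) {B : Finset V} {r : V} {R : ℕ} {N N' : Adj V d}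
    {x x' : St V d} (h : Agr G B r R N N' x x') (hN : Stp G B N) (s : Equiv.Perm (Fin d))
    (c : Dart V d) (hc : c.1 ∈ B) {n : ℕ} (hn : G.dist r c.1 + n ≤ R) :
    FI.pos N x s c n = FI.pos N' x' s c n := by
  apply pos_congr
  intro i f hi hf
  have h1 := pos_mem hN hc hf
  have h2 := pos_dist_le hG hN r hf
  exact ⟨h.st _ h1 (by omega), h.ad _ h1 (by omega) _⟩

theorem Agr.sideOK (hG : G.IsTree) {B : Finset V} {r : V} {R : ℕ} {N N' : Adj V d}
    {x x' : St V d} (h : Agr G B r R N N' x x') (hN : Stp G B N) (s : Equiv.Perm (Fin d))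
    {J : ℕ} (c : Dart V d) (hc : c.1 ∈ B) (hn : G.dist r c.1 + 1 + J ≤ R) :
    FI.sideOK J N x s c ↔ FI.sideOK J N' x' s c := by
  unfold FI.sideOK
  have h1 : N c = N' c := h.ad c.1 hc (by omega) c.2
  rw [← h1]
  refine forall_congr' fun c' => ?_
  refine imp_congr_right fun hc' => ?_
  have h2 := hN _ _ hc'
  have h3 := dist_adj_le hG r h2.2
  rw [h.pos hG hN s c' h2.1 (by omega)]

theorem Agr.own (hG : G.IsTree) {B : Finset V} {r : V} {R : ℕ} {N N' : Adj V d}
    {x x' : St V d} (h : Agr G B r R N N' x x') (hN : Stp G B N) (τ : Equiv.Perm (Fin d))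
    (b : Fin d) {J : ℕ} (a : Dart V d) (ha : a.1 ∈ B) {n : ℕ} (hn : G.dist r a.1 + n + 1 + J ≤ R) :
    FI.own J N x τ b a n ↔ FI.own J N' x' τ b a n := by
  unfold FI.own
  rw [← h.pos hG hN τ a ha (n := n) (by omega)]
  refine exists_congr fun f => ?_
  refine and_congr_right fun hf => ?_
  have h1 := pos_mem hN ha hf
  have h2 := pos_dist_le hG hN r hf
  have h3 : x f.1 = x' f.1 := h.st _ h1 (by omega)
  have h4 : col x f = col x' f := by unfold col; rw [h3]
  have h5 : ∀ k, dt x f.1 k = dt x' f.1 k := by intro k; unfold dt; rw [h3]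
  rw [← h4, ← h5, ← h5]
  rw [h.sideOK hG hN _ _ (by exact h1) (by change G.dist r f.1 + 1 + J ≤ R; omega),
    h.sideOK hG hN _ _ (by exact h1) (by change G.dist r f.1 + 1 + J ≤ R; omega)]

theorem Agr.cntOwn (hG : G.IsTree) {B : Finset V} {r : V} {R : ℕ} {N N' : Adj V d}
    {x x' : St V d} (h : Agr G B r R N N' x x') (hN : Stp G B N) (τ : Equiv.Perm (Fin d))
    (b : Fin d) {J : ℕ} (a : Dart V d) (ha : a.1 ∈ B) {j : ℕ}
    (hn : G.dist r a.1 + 2 * j + 1 + J ≤ R) :
    FI.cntOwn J N x τ b a j = FI.cntOwn J N' x' τ b a j := by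
  unfold FI.cntOwn
  congr 1
  apply Finset.filter_congr
  intro m hm
  rw [Finset.mem_range] at hm
  exact h.own hG hN τ b a ha (by omega)

end Tree

end Loc

end FI
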