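import Pool.Agent.H99.FI.Loc.Basic

/-!
# Job L (MP_bdd10f_pr): locality of the repair kernel (helper27)
-/

set_option autoImplicit false

namespace FI

open Finset Function
open scoped Classical

namespace Loc

section Tree

variable {V : Type*} {G : SimpleGraph V} {d : ℕ}

theorem onCh_dist (hG : G.IsTree) (T : PT G d) {N : Adj V d}
    (hN : ∀ a b, N a = some b → T.N0 a = b) {x : St V d} (hx : Cons N x)
    {τ : Equiv.Perm (Fin d)} {a : Dart V d} (ha : τ (col x a) ≠ col x a) {n : ℕ} {f : Dart V d}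
    (hf : FI.pos N x τ a n = some f) : G.dist a.1 f.1 = n := by
  obtain ⟨w, hw, hwk⟩ := pos_wk hx ha hf
  have := (T.wk_dist hG hN hwk).1
  rw [SimpleGraph.dist_comm, this, hw]

theorem Agr.onCh (hG : G.IsTree) (T : PT G d) {B : Finset V} {R : ℕ} {N N' : Adj V d}
    {x x' : St V d} {a : Dart V d} (h : Agr G B a.1 R N N' x x') (hS : Stp G B N)
    (hN : ∀ a b, N a = some b → T.N0 a = b) (hN' : ∀ a b, N' a = some b → T.N0 a = b)
    (hx : Cons N x) (hx' : Cons N' x') {τ : Equiv.Perm (Fin d)} (ha : τ (col x a) ≠ col x a)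
    (haB : a.1 ∈ B) {v : V} (hv : G.dist a.1 v ≤ R) :
    FI.onCh N x τ a v ↔ FI.onCh N' x' τ a v := by
  have hxa : x a.1 = x' a.1 := h.st _ haB (by simp)
  have ha' : τ (col x' a) ≠ col x' a := by
    unfold col at ha ⊢
    rwa [← hxa]
  have key : ∀ n, n ≤ R → FI.pos N x τ a n = FI.pos N' x' τ a n := fun n hn =>
    h.pos hG hS τ a haB (by simpa using hn)
  constructor
  · rintro ⟨n, f, hf, rfl⟩
    have := onCh_dist hG T hN hx ha hf
    exact ⟨n, f, by rw [← key n (by omega)]; exact hf, rfl⟩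
  · rintro ⟨n, f, hf, rfl⟩
    have := onCh_dist hG T hN' hx' ha' hf
    exact ⟨n, f, by rw [key n (by omega)]; exact hf, rfl⟩

theorem Agr.flip (hG : G.IsTree) (T : PT G d) {B : Finset V} {R : ℕ} {N N' : Adj V d}
    {x x' : St V d} {a : Dart V d} (h : Agr G B a.1 R N N' x x') (hS : Stp G B N)
    (hN : ∀ a b, N a = some b → T.N0 a = b) (hN' : ∀ a b, N' a = some b → T.N0 a = b)
    (hx : Cons N x) (hx' : Cons N' x') {τ : Equiv.Perm (Fin d)} (ha : τ (col x a) ≠ col x a)
    (haB : a.1 ∈ B) :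
    Agr G B a.1 R N N' (FI.flip N x τ a) (FI.flip N' x' τ a) := by
  refine ⟨fun v hv hd => ?_, h.ad⟩
  unfold FI.flip
  rw [h.st v hv hd]
  exact if_congr (h.onCh hG T hS hN hN' hx hx' ha haB hd) rfl rfl

theorem Agr.sel (hG : G.IsTree) (T : PT G d) {B : Finset V} {R : ℕ} {N N' : Adj V d}
    {x x' : St V d} {a : Dart V d} (h : Agr G B a.1 R N N' x x') (hS : Stp G B N)
    (hN : ∀ a b, N a = some b → T.N0 a = b) (hN' : ∀ a b, N' a = some b → T.N0 a = b)
    (hx : Cons N x) (hx' : Cons N' x') {τ : Equiv.Perm (Fin d)} (ha : τ (col x a) ≠ col x a)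
    (haB : a.1 ∈ B) (b : Fin d) (P : Par) {j : ℕ} (hj : 2 * j + 1 + P.J ≤ R) :
    FI.sel P N x τ b a j ↔ FI.sel P N' x' τ b a j := by
  unfold FI.sel cntOth
  have h' := h.flip hG T hS hN hN' hx hx' ha haB
  rw [h.own hG hS τ b a haB (by simpa using hj), h.cntOwn hG hS τ b a haB (by simpa using hj),
    h'.cntOwn hG hS τ b a haB (by simpa using hj)]

theorem Agr.avail (hG : G.IsTree) (T : PT G d) {B : Finset V} {R : ℕ} {N N' : Adj V d}
    {x x' : St V d} {a : Dart V d} (h : Agr G B a.1 R N N' x x') (hS : Stp G B N)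
    (hN : ∀ a b, N a = some b → T.N0 a = b) (hN' : ∀ a b, N' a = some b → T.N0 a = b)
    (hx : Cons N x) (hx' : Cons N' x') {τ : Equiv.Perm (Fin d)} (ha : τ (col x a) ≠ col x a)
    (haB : a.1 ∈ B) (b : Fin d) (P : Par) (hR : 2 * P.M + P.J + 1 ≤ R) :
    FI.avail P N x τ b a = FI.avail P N' x' τ b a := by
  unfold FI.avail
  apply List.filter_congr
  intro j hj
  rw [List.mem_range] at hj
  rw [decide_eq_decide]
  exact h.sel hG T hS hN hN' hx hx' ha haB b P (by omega)

/-- the side chains -/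
theorem Agr.side (hG : G.IsTree) {B : Finset V} {r : V} {R : ℕ} {N N' : Adj V d}
    {x x' : St V d} (h : Agr G B r R N N' x x') (hN : Stp G B N) (s : Equiv.Perm (Fin d))
    {J : ℕ} (c : Dart V d) (hc : c.1 ∈ B) (hn : G.dist r c.1 + 1 + J ≤ R)
    (hs : FI.sideOK J N x s c) (v : V) :
    (∃ c', N c = some c' ∧ FI.onCh N x s c' v) ↔ (∃ c', N' c = some c' ∧ FI.onCh N' x' s c' v) := by
  have h1 : N c = N' c := h.ad c.1 hc (by omega) c.2
  rw [← h1]
  refine exists_congr fun c' => and_congr_right fun hc' => ?_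
  have h2 := hN _ _ hc'
  have h3 := dist_adj_le hG r h2.2
  have key : ∀ m, FI.pos N x s c' m = FI.pos N' x' s c' m := by
    intro m
    rcases le_total m J with hm | hm
    · exact h.pos hG hN s c' h2.1 (by omega)
    · have e1 : FI.pos N x s c' J = none := hs c' hc'
      have e2 : FI.pos N' x' s c' J = none := by
        rw [← h.pos hG hN s c' h2.1 (n := J) (by omega)]; exact e1
      rw [pos_none_of_le e1 hm, pos_none_of_le e2 hm]
  unfold FI.onCh
  simp only [key]

theorem side_off (hG : G.IsTree) {B : Finset V} {r : V} {R : ℕ} {N : Adj V d}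
    {x : St V d} (hN : Stp G B N) (s : Equiv.Perm (Fin d))
    {J : ℕ} (c : Dart V d) (hn : G.dist r c.1 + 1 + J ≤ R)
    (hs : FI.sideOK J N x s c) (v : V) (hv : ∃ c', N c = some c' ∧ FI.onCh N x s c' v) :
    v ∈ B ∧ G.dist r v + 1 ≤ R := by
  obtain ⟨c', hc', n, f, hf, rfl⟩ := hv
  have h2 := hN _ _ hc'
  have h3 := dist_adj_le hG r h2.2
  have h4 : n < J := by
    by_contra hcon
    push Not at hcon
    rw [pos_none_of_le (hs c' hc') hcon] at hf
    cases hf
  have h5 := pos_dist_le hG hN r hf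
  exact ⟨pos_mem hN h2.1 hf, by omega⟩

theorem phi_eq {N : Adj V d} {x : St V d} {τ : Equiv.Perm (Fin d)} {b : Fin d} {a : Dart V d}
    {n : ℕ} {f : Dart V d} (h : FI.pos N x τ a n = some f) :
    phi N x τ b a n = fun v =>
      if v = f.1 then cyc (col x f) (τ (col x f)) b * x v
      else if ∃ i g, i < n ∧ FI.pos N x τ a i = some g ∧ g.1 = v then τ * x v
      else if ∃ c, N (dt x f.1 (τ (col x f))) = some c ∧
          onCh N x (Equiv.swap (τ (col x f)) b) c v then
        Equiv.swap (τ (col x f)) b * x v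
      else if ∃ c, N (dt x f.1 b) = some c ∧ onCh N x (Equiv.swap b (col x f)) c v then
        Equiv.swap b (col x f) * x v
      else x v := by
  unfold phi
  rw [h]

theorem Agr.phi (hG : G.IsTree) {B : Finset V} {r : V} {R : ℕ} {N N' : Adj V d}
    {x x' : St V d} (h : Agr G B r R N N' x x') (hS : Stp G B N)
    {τ : Equiv.Perm (Fin d)} {b : Fin d} {a : Dart V d} (haB : a.1 ∈ B) {n J : ℕ}
    (hn : G.dist r a.1 + n + 1 + J ≤ R) (ho : FI.own J N x τ b a n) {v : V} (hv : x v = x' v) :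
    FI.phi N x τ b a n v = FI.phi N' x' τ b a n v := by
  obtain ⟨f, hf, hs1, hs2⟩ := ho
  have hf' : FI.pos N' x' τ a n = some f := by
    rw [← h.pos hG hS τ a haB (n := n) (by omega)]; exact hf
  have h1 := pos_mem hS haB hf
  have h2 := pos_dist_le hG hS r hf
  have h3 : x f.1 = x' f.1 := h.st _ h1 (by omega)
  have h4 : col x' f = col x f := by unfold col; rw [h3]
  have h5 : ∀ k, dt x' f.1 k = dt x f.1 k := by intro k; unfold dt; rw [h3]
  rw [phi_eq hf, phi_eq hf']
  simp only [h4, h5]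
  rw [← hv]
  have hB : (∃ i g, i < n ∧ FI.pos N x τ a i = some g ∧ g.1 = v) ↔
      (∃ i g, i < n ∧ FI.pos N' x' τ a i = some g ∧ g.1 = v) := by
    refine exists_congr fun i => exists_congr fun g => and_congr_right fun hi => ?_
    rw [h.pos hG hS τ a haB (n := i) (by omega)]
  refine if_congr Iff.rfl rfl (if_congr hB rfl (if_congr ?_ rfl (if_congr ?_ rfl rfl)))
  · exact h.side hG hS _ (dt x f.1 (τ (col x f))) h1
      (by change G.dist r f.1 + 1 + J ≤ R; omega) hs1 v
  · exact h.side hG hS _ (dt x f.1 b) h1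
      (by change G.dist r f.1 + 1 + J ≤ R; omega) hs2 v

theorem phi_off (hG : G.IsTree) {B : Finset V} {r : V} {R : ℕ} {N : Adj V d}
    {x : St V d} (hS : Stp G B N)
    {τ : Equiv.Perm (Fin d)} {b : Fin d} {a : Dart V d} (haB : a.1 ∈ B) {n J : ℕ}
    (hn : G.dist r a.1 + n + 1 + J ≤ R) (ho : FI.own J N x τ b a n) {v : V}
    (hv : ¬ (v ∈ B ∧ G.dist r v + 1 ≤ R)) :
    FI.phi N x τ b a n v = x v := by
  obtain ⟨f, hf, hs1, hs2⟩ := ho
  have h1 := pos_mem hS haB hf
  have h2 := pos_dist_le hG hS r hf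
  rw [phi_eq hf]
  simp only
  rw [if_neg, if_neg, if_neg, if_neg]
  · intro h
    exact hv (side_off hG hS _ (dt x f.1 b)
      (by change G.dist r f.1 + 1 + J ≤ R; omega) hs2 v h)
  · intro h
    exact hv (side_off hG hS _ (dt x f.1 (τ (col x f)))
      (by change G.dist r f.1 + 1 + J ≤ R; omega) hs1 v h)
  · rintro ⟨i, g, hi, hg, rfl⟩
    have h3 := pos_dist_le hG hS r hg
    exact hv ⟨pos_mem hS haB hg, by omega⟩
  · rintro rfl
    exact hv ⟨h1, by omega⟩

end Tree

end Loc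

end FI
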